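import Pool.Agent.Helper98.QR.StmtsT

/-!
# Row T11: size of the constant in the asymptotics of the number of maps
-/

namespace QR

open Filter Topology

theorem t11_cb_rec (n : ℕ) :
    ((n : ℝ) + 1) * (Nat.centralBinom (n + 1) : ℝ) = 2 * (2 * n + 1) * (Nat.centralBinom n : ℝ) := by
  have h := Nat.succ_mul_centralBinom_succ n
  exact_mod_cast h

theorem t11_lower (n : ℕ) :
    (16 : ℝ) ^ (n + 1) ≤ 4 * ((n : ℝ) + 1) * (Nat.centralBinom (n + 1) : ℝ) ^ 2 := by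
  induction n with
  | zero =>
    have h1 : Nat.centralBinom 1 = 2 := by decide
    simp only [zero_add, h1]
    norm_num
  | succ n ih =>
    have h := t11_cb_rec (n + 1)
    push_cast at h ih ⊢
    set c := (Nat.centralBinom (n + 1) : ℝ) with hc
    set d := (Nat.centralBinom (n + 1 + 1) : ℝ) with hd
    have hn : (0 : ℝ) ≤ n := Nat.cast_nonneg n
    have h2 : ((n : ℝ) + 1 + 1) ^ 2 * d ^ 2 = 4 * (2 * ((n : ℝ) + 1) + 1) ^ 2 * c ^ 2 := by
      have h9 := congrArg (fun z : ℝ => z ^ 2) h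
      linear_combination h9
    have h3 : 0 ≤ c ^ 2 := sq_nonneg c
    have hpos : (0 : ℝ) < (n : ℝ) + 1 + 1 := by linarith
    refine le_of_mul_le_mul_left ?_ hpos
    calc ((n : ℝ) + 1 + 1) * 16 ^ (n + 1 + 1) = 16 * ((n : ℝ) + 1 + 1) * 16 ^ (n + 1) := by ring
      _ ≤ 16 * ((n : ℝ) + 1 + 1) * (4 * ((n : ℝ) + 1) * c ^ 2) := by gcongr
      _ ≤ 4 * (4 * (2 * ((n : ℝ) + 1) + 1) ^ 2 * c ^ 2) := by nlinarith [h3]
      _ = 4 * (((n : ℝ) + 1 + 1) ^ 2 * d ^ 2) := by rw [h2]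
      _ = ((n : ℝ) + 1 + 1) * (4 * ((n : ℝ) + 1 + 1) * d ^ 2) := by ring

theorem t11_upper (n : ℕ) :
    (3 * (n : ℝ) + 1) * (Nat.centralBinom n : ℝ) ^ 2 ≤ (16 : ℝ) ^ n := by
  induction n with
  | zero => simp [Nat.centralBinom_zero]
  | succ n ih =>
    have h := t11_cb_rec n
    push_cast
    set c := (Nat.centralBinom n : ℝ) with hc
    set d := (Nat.centralBinom (n + 1) : ℝ) with hd
    have hn : (0 : ℝ) ≤ n := Nat.cast_nonneg n
    have h2 : ((n : ℝ) + 1) ^ 2 * d ^ 2 = 4 * (2 * (n : ℝ) + 1) ^ 2 * c ^ 2 := by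
      have h9 := congrArg (fun z : ℝ => z ^ 2) h
      linear_combination h9
    have h3 : 0 ≤ c ^ 2 := sq_nonneg c
    have hpos : (0 : ℝ) < ((n : ℝ) + 1) ^ 2 := by positivity
    refine le_of_mul_le_mul_left ?_ hpos
    calc ((n : ℝ) + 1) ^ 2 * ((3 * ((n : ℝ) + 1) + 1) * d ^ 2)
        = (3 * ((n : ℝ) + 1) + 1) * (((n : ℝ) + 1) ^ 2 * d ^ 2) := by ring
      _ = (3 * ((n : ℝ) + 1) + 1) * (4 * (2 * (n : ℝ) + 1) ^ 2 * c ^ 2) := by rw [h2]
      _ ≤ 16 * ((n : ℝ) + 1) ^ 2 * ((3 * (n : ℝ) + 1) * c ^ 2) := by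
          have h4 : (3 * ((n : ℝ) + 1) + 1) * (4 * (2 * (n : ℝ) + 1) ^ 2) ≤
              16 * ((n : ℝ) + 1) ^ 2 * (3 * (n : ℝ) + 1) := by nlinarith
          nlinarith [mul_le_mul_of_nonneg_right h4 h3]
      _ ≤ 16 * ((n : ℝ) + 1) ^ 2 * 16 ^ n := by gcongr
      _ = ((n : ℝ) + 1) ^ 2 * 16 ^ (n + 1) := by ring

/-- Row T11. -/
theorem st_T11 : ST_T11 := by
  intro P hP
  obtain ⟨n, rfl⟩ : ∃ n, P = n + 1 := ⟨P - 1, by omega⟩
  have hlo := t11_lower n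
  have hup := t11_upper (n + 1)
  unfold cP
  rw [show (2 * (n + 1)).choose (n + 1) = Nat.centralBinom (n + 1) from
    (Nat.centralBinom_eq_two_mul_choose (n + 1)).symm]
  push_cast at hup ⊢
  set C := (Nat.centralBinom (n + 1) : ℝ) with hC
  have hC0 : 0 ≤ C := Nat.cast_nonneg _
  have hn : (0 : ℝ) ≤ n := Nat.cast_nonneg n
  set p : ℝ := (n : ℝ) + 1 with hp
  have hp1 : 1 ≤ p := by rw [hp]; linarith
  have hp0 : 0 < p := by linarith
  set s := Real.sqrt p with hs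
  have hs2 : s ^ 2 = p := Real.sq_sqrt hp0.le
  have hs0 : 0 < s := Real.sqrt_pos.mpr hp0
  set q := Real.sqrt Real.pi with hq
  have hq2 : q ^ 2 = Real.pi := Real.sq_sqrt Real.pi_pos.le
  have hq0 : 0 < q := Real.sqrt_pos.mpr Real.pi_pos
  have hq_up : q ≤ 2 := by
    rw [hq, Real.sqrt_le_left (by norm_num)]
    nlinarith [Real.pi_lt_four]
  have hq_lo : 1 ≤ q := by
    rw [hq, Real.one_le_sqrt]
    linarith [Real.pi_gt_three]
  have h4 : (4 : ℝ) ^ (n + 1) ≤ 2 * s * C := by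
    refine le_of_sq_le_sq ?_ (by positivity)
    calc ((4 : ℝ) ^ (n + 1)) ^ 2 = 16 ^ (n + 1) := by
          rw [← pow_mul, mul_comm (n + 1) 2, pow_mul]; norm_num
      _ ≤ 4 * p * C ^ 2 := hlo
      _ = (2 * s * C) ^ 2 := by rw [← hs2]; ring
  have h5 : s * C ≤ 4 ^ (n + 1) := by
    refine le_of_sq_le_sq ?_ (by positivity)
    calc (s * C) ^ 2 = p * C ^ 2 := by rw [← hs2]; ring
      _ ≤ (3 * p + 1) * C ^ 2 := by nlinarith [sq_nonneg C]
      _ ≤ 16 ^ (n + 1) := hup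
      _ = ((4 : ℝ) ^ (n + 1)) ^ 2 := by
          rw [← pow_mul, mul_comm (n + 1) 2, pow_mul]; norm_num
  have h8 : (8 : ℝ) ^ (n + 1) = 4 ^ (n + 1) * 2 ^ (n + 1) := by
    rw [← mul_pow]; norm_num
  have h2pos : (0 : ℝ) < 2 ^ (n + 1) := by positivity
  constructor
  · rw [le_div_iff₀ (by positivity), h8]
    calc 4 ^ (n + 1) * 2 ^ (n + 1) * s / 8 * (2 * q)
        = 4 ^ (n + 1) * (2 ^ (n + 1) * s * q / 4) := by ring
      _ ≤ (2 * s * C) * (2 ^ (n + 1) * s * q / 4) := by gcongr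
      _ = C * s ^ 2 * 2 ^ (n + 1) * (q / 2) := by ring
      _ ≤ C * s ^ 2 * 2 ^ (n + 1) * 1 := by
          gcongr
          linarith
      _ = C * p * 2 ^ (n + 1) := by rw [hs2]; ring
  · rw [div_le_iff₀ (by positivity), h8]
    calc C * p * 2 ^ (n + 1) = (s * C) * (s * 2 ^ (n + 1)) := by rw [← hs2]; ring
      _ ≤ 4 ^ (n + 1) * (s * 2 ^ (n + 1)) := by gcongr
      _ = 4 ^ (n + 1) * 2 ^ (n + 1) * s * 1 := by ring
      _ ≤ 4 ^ (n + 1) * 2 ^ (n + 1) * s * (2 * q) := by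
          gcongr
          linarith

end QR
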